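import Pool.Agent.H570R3.Pig

set_option autoImplicit false

namespace Pool.Agent.H570R3

lemma card_Gi (i : ℕ) : Nat.card (Gi i) ≤ 2 ^ (mm i ^ 2) := by
  have h1 : Nat.card (Gi i) ≤ Nat.card (Matrix (ZMod (mm i)) (ZMod (mm i)) (ZMod 2)) :=
    Nat.card_le_card_of_injective (fun u : Gi i => (u : Matrix (ZMod (mm i)) (ZMod (mm i)) (ZMod 2)))
      (fun _ _ h => Units.ext h)
  have h2 : Nat.card (Matrix (ZMod (mm i)) (ZMod (mm i)) (ZMod 2)) = 2 ^ (mm i ^ 2) := by
    have : Nat.card (Matrix (ZMod (mm i)) (ZMod (mm i)) (ZMod 2))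
        = Nat.card (ZMod (mm i) → ZMod (mm i) → ZMod 2) := rfl
    rw [this, Nat.card_fun, Nat.card_fun, Nat.card_zmod, Nat.card_zmod, ← pow_mul, sq]
  rw [h2] at h1
  exact h1

lemma card_KK (B : Finset ℕ) : Nat.card (KK B) ≤ 2 ^ (∑ i ∈ B, mm i ^ 2) := by
  let f : KK B → ((i : B) → Gi i) := fun g i => ((g : GG) : Gam) i
  have hf : Function.Injective f := by
    intro g h hgh
    apply Subtype.ext
    apply Subtype.ext
    funext i
    by_cases hi : i ∈ B
    · exact congrFun hgh ⟨i, hi⟩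
    · rw [g.2 i hi, h.2 i hi]
  have h1 : Nat.card (KK B) ≤ Nat.card ((i : B) → Gi i) := Nat.card_le_card_of_injective f hf
  rw [Nat.card_pi] at h1
  refine h1.trans ?_
  rw [← Finset.prod_pow_eq_pow_sum, ← Finset.prod_coe_sort B]
  exact Finset.prod_le_prod' (fun i _ => card_Gi i)

instance (B : Finset ℕ) : Finite (KK B) := by
  let f : KK B → ((i : B) → Gi i) := fun g i => ((g : GG) : Gam) i
  have hf : Function.Injective f := by
    intro g h hgh
    apply Subtype.ext
    apply Subtype.ext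
    funext i
    by_cases hi : i ∈ B
    · exact congrFun hgh ⟨i, hi⟩
    · rw [g.2 i hi, h.2 i hi]
  exact Finite.of_injective f hf

lemma sum_sq (I : ℕ) : ∑ i ∈ Finset.range (I+1), mm i ^ 2 ≤ 2 * mm I ^ 2 := by
  induction I with
  | zero => simp; nlinarith [mm_ge 0]
  | succ I ih =>
    rw [Finset.sum_range_succ]
    have := mm_succ I
    nlinarith

lemma bad_bound {n i : ℕ} (hn : 0 < n) (hb : Bad n i) : 2 ^ (mm i ^ 2) ≤ n ^ 9 := by
  obtain ⟨k, hk⟩ : ∃ k, mm i = 2 * k + 3 ∧ 1 ≤ k := by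
    refine ⟨2 * PP i - 1, ?_, ?_⟩
    · unfold mm; have := PP_pos i; omega
    · have := PP_pos i; omega
  have h1 := lcm_bound n k hn (fun j h1 h2 => hb j h1 (by omega))
  have h2 : mm i ^ 2 ≤ (k^2 + 2*k) * 9 := by
    rw [hk.1]; nlinarith [hk.2]
  calc 2 ^ (mm i ^ 2) ≤ 2 ^ ((k^2 + 2*k) * 9) := Nat.pow_le_pow_right (by norm_num) h2
    _ = (2 ^ (k^2 + 2*k)) ^ 9 := by rw [pow_mul]
    _ ≤ n ^ 9 := Nat.pow_le_pow_left h1 9

lemma card_KK_BB (n : ℕ) (hn : 0 < n) : Nat.card (KK (BB n)) ≤ n ^ 18 := by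
  refine (card_KK _).trans ?_
  by_cases hB : (BB n).Nonempty
  · set I := (BB n).max' hB with hI
    have hIB : I ∈ BB n := Finset.max'_mem _ _
    have hbad : Bad n I := by
      classical
      unfold BB at hIB
      exact (Finset.mem_filter.mp hIB).2
    have hsub : BB n ⊆ Finset.range (I+1) := by
      intro i hi
      rw [Finset.mem_range]
      exact Nat.lt_succ_of_le (Finset.le_max' _ _ hi)
    have h1 : ∑ i ∈ BB n, mm i ^ 2 ≤ 2 * mm I ^ 2 :=
      (Finset.sum_le_sum_of_subset hsub).trans (sum_sq I)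
    calc 2 ^ (∑ i ∈ BB n, mm i ^ 2) ≤ 2 ^ (2 * mm I ^ 2) := Nat.pow_le_pow_right (by norm_num) h1
      _ = (2 ^ (mm I ^ 2)) ^ 2 := by rw [← pow_mul]; congr 1; ring
      _ ≤ (n ^ 9) ^ 2 := Nat.pow_le_pow_left (bad_bound hn hbad) 2
      _ = n ^ 18 := by rw [← pow_mul]
  · rw [Finset.not_nonempty_iff_eq_empty] at hB
    rw [hB]
    simp
    exact Nat.one_le_pow _ _ hn

lemma AA_index (n : ℕ) (hn : 0 < n) :
    (AA n : Subgroup GG).index ≠ 0 ∧ (AA n : Subgroup GG).index ≤ n ^ 19 := by
  have h1 : (AA n : Subgroup GG).relIndex (HH n) * (HH n).index = (AA n : Subgroup GG).index :=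
    Subgroup.relIndex_mul_index le_sup_left
  have h2 : (AA n : Subgroup GG).relIndex (HH n) = (AA n : Subgroup GG).relIndex (KK (BB n)) := by
    unfold HH
    rw [sup_comm, Subgroup.relIndex_sup_right]
  have h3 : (AA n : Subgroup GG).relIndex (KK (BB n)) ∣ Nat.card (KK (BB n)) :=
    Subgroup.relIndex_dvd_card _ _
  have h4 : (AA n : Subgroup GG).index ∣ Nat.card (KK (BB n)) * n := by
    rw [← h1, h2]
    exact mul_dvd_mul h3 (HH_index n hn)
  have hpos : 0 < Nat.card (KK (BB n)) * n := Nat.mul_pos Nat.card_pos hn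
  constructor
  · intro h0
    rw [h0, zero_dvd_iff] at h4
    omega
  · calc (AA n : Subgroup GG).index ≤ Nat.card (KK (BB n)) * n := Nat.le_of_dvd hpos h4
      _ ≤ n ^ 18 * n := Nat.mul_le_mul_right _ (card_KK_BB n hn)
      _ = n ^ 19 := by rw [← pow_succ]

instance : Group.FG GG := Group.closure_finite_fg _

lemma rf (g : GG) (hg : g ≠ 1) : ∃ N : Subgroup GG, N.Normal ∧ N.FiniteIndex ∧ g ∉ N := by
  obtain ⟨i, hi⟩ : ∃ i, (g : Gam) i ≠ 1 := by
    by_contra hcon
    push Not at hcon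
    apply hg
    apply Subtype.ext
    funext i
    exact hcon i
  let f : GG →* Gi i := (Pi.evalMonoidHom _ i).comp G0.subtype
  refine ⟨f.ker, inferInstance, inferInstance, ?_⟩
  intro h
  exact hi h

lemma nonlin (K : Type) [Field K] (m : ℕ) (ρ : GG →* Matrix.GeneralLinearGroup (Fin m) K)
    (hρ : Function.Injective ρ) : False := by
  let a : ℕ → GG := fun i => psi i (E i 0 1)
  let b : ℕ → GG := fun i => psi i (E i 1 2)
  have hcomm : ∀ i j, i ≠ j → a i * b j = b j * a i := by
    intro i j hij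
    apply Subtype.ext
    exact (Pi.mulSingle_commute hij _ _).eq
  have hnc : ∀ i, a i * b i ≠ b i * a i := by
    intro i h
    have h1 := congrArg (fun g : GG => (g : Gam) i) h
    have h2 : E i 0 1 * E i 1 2 = E i 1 2 * E i 0 1 := by
      have e1 : ((a i * b i : GG) : Gam) i = E i 0 1 * E i 1 2 := by
        show (Pi.mulSingle i (E i 0 1) : Gam) i * (Pi.mulSingle i (E i 1 2) : Gam) i = _
        simp
      have e2 : ((b i * a i : GG) : Gam) i = E i 1 2 * E i 0 1 := by
        show (Pi.mulSingle i (E i 1 2) : Gam) i * (Pi.mulSingle i (E i 0 1) : Gam) i = _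
        simp
      rw [← e1, ← e2]; exact h1
    have hm := mm_ge i
    have h3 : E i 0 1 * E i 1 2 * (E i 0 1)⁻¹ * (E i 1 2)⁻¹ = E i 0 2 := by
      apply E_comm
      · exact nd i _ (by norm_num) (by norm_num; omega)
      · exact nd i _ (by norm_num) (by norm_num; omega)
      · exact nd i _ (by norm_num) (by norm_num; omega)
    have h4 : E i 0 2 = 1 := by
      rw [← h3, h2]; group
    exact Eu_ne_one (ne_of_ndvd (nd i _ (by norm_num) (by norm_num; omega))) h4
  let f : ℕ → Matrix (Fin m) (Fin m) K := fun i => ((ρ (a i) : Matrix.GeneralLinearGroup (Fin m) K) : Matrix (Fin m) (Fin m) K)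
  have hli : LinearIndependent K f := by
    rw [linearIndependent_iff']
    intro s g hsum j hj
    let B : Matrix (Fin m) (Fin m) K := ((ρ (b j) : Matrix.GeneralLinearGroup (Fin m) K) : Matrix (Fin m) (Fin m) K)
    have h1 : ∑ i ∈ s, g i • (f i * B - B * f i) = 0 := by
      have e1 : ∑ i ∈ s, g i • (f i * B - B * f i) = (∑ i ∈ s, g i • f i) * B - B * (∑ i ∈ s, g i • f i) := by
        rw [Finset.sum_mul, Finset.mul_sum, ← Finset.sum_sub_distrib]
        apply Finset.sum_congr rfl
        intro i _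
        rw [smul_sub, Matrix.smul_mul, Matrix.mul_smul]
      rw [e1, hsum]; simp
    rw [Finset.sum_eq_single j] at h1
    · rcases smul_eq_zero.mp h1 with h2 | h2
      · exact h2
      · exfalso
        apply hnc j
        apply hρ
        apply Units.ext
        rw [map_mul, map_mul, Units.val_mul, Units.val_mul]
        exact sub_eq_zero.mp h2
    · intro i _ hij
      have h2 : f i * B = B * f i := by
        have := congrArg (fun g : GG => ((ρ g : Matrix.GeneralLinearGroup (Fin m) K) : Matrix (Fin m) (Fin m) K)) (hcomm i j hij)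
        simp only [map_mul, Units.val_mul] at this
        exact this
      rw [h2]; simp
    · intro h; exact absurd hj h
  have hfin : Finite ℕ := hli.finite
  exact not_finite ℕ

end Pool.Agent.H570R3
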