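import Mathlib

set_option autoImplicit false

namespace Pool.Agent.H570R3

/-- `w k r = ∏_{i ≤ k} (2^i-1) / ∏_{i=1}^{k+1} (2^{r+i}-1)`. -/
noncomputable def w (k r : ℕ) : ℚ :=
  (∏ i ∈ Finset.range k, ((2:ℚ) ^ (i+1) - 1)) /
    ∏ i ∈ Finset.range (k+1), ((2:ℚ) ^ (r+i+1) - 1)

lemma a_pos (j : ℕ) : (0:ℚ) < (2:ℚ) ^ (j+1) - 1 := by
  have : (1:ℚ) < 2 ^ (j+1) := one_lt_pow₀ (by norm_num) (by omega)
  linarith

lemma w_pos (k r : ℕ) : 0 < w k r := by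
  unfold w
  apply div_pos
  · exact Finset.prod_pos fun i _ => a_pos i
  · exact Finset.prod_pos fun i _ => a_pos (r+i)

lemma w_rec (k r : ℕ) : w (k+1) r = w k r - 2 ^ (k+1) * w k (r+1) := by
  unfold w
  have h1 : ∏ i ∈ Finset.range (k+1+1), ((2:ℚ) ^ (r+i+1) - 1)
      = ((2:ℚ)^(r+1) - 1) * ((∏ i ∈ Finset.range k, ((2:ℚ) ^ (r+1+i+1) - 1)) * ((2:ℚ)^(r+1+k+1) - 1)) := by
    rw [Finset.prod_range_succ']
    rw [Finset.prod_range_succ]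
    rw [mul_comm]
    simp only [add_zero]
    congr 2
    · apply Finset.prod_congr rfl
      intro i _
      congr 2
      ring
    · congr 2
      ring
  have h2 : ∏ i ∈ Finset.range (k+1), ((2:ℚ) ^ (r+i+1) - 1)
      = ((2:ℚ)^(r+1) - 1) * (∏ i ∈ Finset.range k, ((2:ℚ) ^ (r+1+i+1) - 1)) := by
    rw [Finset.prod_range_succ']
    rw [mul_comm]
    simp only [add_zero]
    congr 1
    apply Finset.prod_congr rfl
    intro i _
    congr 2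
    ring
  have h3 : ∏ i ∈ Finset.range (k+1), ((2:ℚ) ^ (r+1+i+1) - 1)
      = (∏ i ∈ Finset.range k, ((2:ℚ) ^ (r+1+i+1) - 1)) * ((2:ℚ)^(r+1+k+1) - 1) := by
    rw [Finset.prod_range_succ]
  rw [h1, h2, h3, Finset.prod_range_succ]
  have e1 : ((2:ℚ)^(r+1) - 1) ≠ 0 := (a_pos r).ne'
  have e2 : ((2:ℚ)^(r+1+k+1) - 1) ≠ 0 := (a_pos (r+1+k)).ne'
  have e3 : (∏ i ∈ Finset.range k, ((2:ℚ) ^ (r+1+i+1) - 1)) ≠ 0 :=
    (Finset.prod_pos fun i _ => a_pos (r+1+i)).ne'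
  field_simp
  ring

lemma w_int (L M : ℕ) (hL : ∀ j, 1 ≤ j → j ≤ M → (2^j - 1) ∣ L) :
    ∀ k r : ℕ, r + k + 1 ≤ M → ∃ z : ℤ, (L:ℚ) * w k r = z := by
  intro k
  induction k with
  | zero =>
    intro r hr
    obtain ⟨q, hq⟩ := hL (r+1) (by omega) (by omega)
    refine ⟨q, ?_⟩
    unfold w
    have h1 : (1:ℕ) ≤ 2^(r+1) := Nat.one_le_two_pow
    have h2 : (L:ℚ) = ((2:ℚ)^(r+1) - 1) * q := by
      rw [hq]
      push_cast [Nat.cast_sub h1]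
      ring
    have e1 : ((2:ℚ)^(r+1) - 1) ≠ 0 := (a_pos r).ne'
    rw [h2]
    simp
    field_simp
  | succ k ih =>
    intro r hr
    obtain ⟨z1, h1⟩ := ih r (by omega)
    obtain ⟨z2, h2⟩ := ih (r+1) (by omega)
    refine ⟨z1 - 2^(k+1) * z2, ?_⟩
    rw [w_rec]
    push_cast
    rw [← h1, ← h2]
    ring

/-- If `2^j-1 ∣ L` for all `1 ≤ j ≤ 2k+1`, then `L ≥ 2^(k^2+2k)`. -/
theorem lcm_bound (L k : ℕ) (hL0 : 0 < L)
    (hL : ∀ j, 1 ≤ j → j ≤ 2*k+1 → (2^j - 1) ∣ L) : 2^(k^2+2*k) ≤ L := by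
  obtain ⟨z, hz⟩ := w_int L (2*k+1) hL k k (by omega)
  have hpos : 0 < (L:ℚ) * w k k := mul_pos (by exact_mod_cast hL0) (w_pos k k)
  have hz1 : (1:ℚ) ≤ (L:ℚ) * w k k := by
    rw [hz] at hpos ⊢
    have h0 : 0 < z := by exact_mod_cast hpos
    have h1 : 1 ≤ z := h0
    exact_mod_cast h1
  -- w k k ≤ 1 / 2^(k^2+2k)
  have hw : w k k * 2^(k^2+2*k) ≤ 1 := by
    unfold w
    rw [Finset.prod_range_succ]
    have hA : (∏ i ∈ Finset.range k, ((2:ℚ) ^ (i+1) - 1)) * 2^(k^2)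
        ≤ ∏ i ∈ Finset.range k, ((2:ℚ) ^ (k+i+1) - 1) := by
      have : (2:ℚ)^(k^2) = ∏ i ∈ Finset.range k, (2:ℚ)^k := by
        simp [← pow_mul, sq]
      rw [this, ← Finset.prod_mul_distrib]
      apply Finset.prod_le_prod
      · intro i _
        exact mul_nonneg (a_pos i).le (by positivity)
      · intro i _
        have h1 : (1:ℚ) ≤ 2^k := one_le_pow₀ (by norm_num)
        have h2 : (2:ℚ)^(k+i+1) = 2^(i+1) * 2^k := by rw [← pow_add]; congr 1; ring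
        rw [h2]
        nlinarith
    have hB : (2:ℚ)^(2*k) ≤ (2:ℚ)^(k+k+1) - 1 := by
      have h1 : (1:ℚ) ≤ 2^(2*k) := one_le_pow₀ (by norm_num)
      have h2 : (2:ℚ)^(k+k+1) = 2 * 2^(2*k) := by
        rw [show k+k+1 = (2*k)+1 by ring, pow_succ]; ring
      rw [h2]; linarith
    have hP1 : 0 < ∏ i ∈ Finset.range k, ((2:ℚ) ^ (k+i+1) - 1) :=
      Finset.prod_pos fun i _ => a_pos (k+i)
    have hP2 : 0 < (2:ℚ)^(k+k+1) - 1 := a_pos (k+k)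
    have hP3 : 0 < ∏ i ∈ Finset.range k, ((2:ℚ) ^ (i+1) - 1) :=
      Finset.prod_pos fun i _ => a_pos i
    rw [div_mul_eq_mul_div, div_le_one (mul_pos hP1 hP2), pow_add, ← mul_assoc]
    exact mul_le_mul hA hB (by positivity) hP1.le
  have h3 : (2:ℚ)^(k^2+2*k) ≤ L := by
    have hp : (0:ℚ) < 2^(k^2+2*k) := by positivity
    have hLq : (0:ℚ) < L := by exact_mod_cast hL0
    calc (2:ℚ)^(k^2+2*k) = 1 * 2^(k^2+2*k) := by ring
      _ ≤ ((L:ℚ) * w k k) * 2^(k^2+2*k) := by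
          apply mul_le_mul_of_nonneg_right hz1 hp.le
      _ = L * (w k k * 2^(k^2+2*k)) := by ring
      _ ≤ L * 1 := by apply mul_le_mul_of_nonneg_left hw hLq.le
      _ = L := by ring
  exact_mod_cast h3

end Pool.Agent.H570R3
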