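import Pool.Agent.H570R3.Lin2
import Pool.Agent.H570R3.Num

set_option autoImplicit false

namespace Pool.Agent.H570R3

def PP : ℕ → ℕ
  | 0 => 1
  | (i+1) => PP i * (4 * PP i + 1)

def mm (i : ℕ) : ℕ := 4 * PP i + 1

lemma PP_pos (i : ℕ) : 1 ≤ PP i := by
  induction i with
  | zero => simp [PP]
  | succ i ih =>
    show 1 ≤ PP i * (4 * PP i + 1)
    nlinarith

lemma mm_dvd_PP {j i : ℕ} (h : j < i) : mm j ∣ PP i := by
  induction i with
  | zero => omega
  | succ i ih =>
    rcases Nat.lt_succ_iff_lt_or_eq.mp h with h1 | rfl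
    · exact (ih h1).mul_right _
    · exact Dvd.intro_left _ rfl

lemma mm_ge (i : ℕ) : 5 ≤ mm i := by unfold mm; have := PP_pos i; omega

lemma mm_succ (i : ℕ) : 4 * mm i ≤ mm (i+1) := by
  unfold mm
  show 4*(4*PP i+1) ≤ 4*(PP i * (4*PP i+1))+1
  nlinarith [PP_pos i]

lemma mm_strictMono : StrictMono mm :=
  strictMono_nat_of_lt_succ (fun i => by have := mm_succ i; have := mm_ge i; omega)

lemma lt_mm (i : ℕ) : i + 5 ≤ mm i := by
  induction i with
  | zero => exact mm_ge 0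
  | succ i ih => have := mm_succ i; omega

lemma mm_big {i j : ℕ} (h : i < j) : mm i + 2 < mm j := by
  have h1 : mm (i+1) ≤ mm j := mm_strictMono.monotone h
  have := mm_succ i
  have := mm_ge i
  omega

lemma not_dvd1 {i j : ℕ} (h : j ≠ i) : ¬ mm j ∣ mm i := by
  intro hd
  rcases lt_or_gt_of_ne h with h1 | h1
  · have h2 := mm_dvd_PP h1
    have h3 : mm j ∣ 1 := by
      have h4 : mm j ∣ 4 * PP i := h2.mul_left _
      have h5 : mm j ∣ 4 * PP i + 1 := hd
      exact (Nat.dvd_add_right h4).mp h5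
    have := Nat.le_of_dvd (by norm_num) h3
    have := mm_ge j
    omega
  · have := mm_big h1
    have := Nat.le_of_dvd (by have := mm_ge i; omega) hd
    omega

lemma not_dvd2 {i j : ℕ} (h : j ≠ i) : ¬ mm j ∣ mm i + 2 := by
  intro hd
  rcases lt_or_gt_of_ne h with h1 | h1
  · have h2 := mm_dvd_PP h1
    have h3 : mm j ∣ 3 := by
      have h4 : mm j ∣ 4 * PP i := h2.mul_left _
      have h5 : mm j ∣ 4 * PP i + 3 := hd
      exact (Nat.dvd_add_right h4).mp h5
    have := Nat.le_of_dvd (by norm_num) h3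
    have := mm_ge j
    omega
  · have := mm_big h1
    have := Nat.le_of_dvd (by have := mm_ge i; omega) hd
    omega

instance (i : ℕ) : NeZero (mm i) := ⟨by have := mm_ge i; omega⟩

abbrev Gi (i : ℕ) := S (ZMod (mm i))

abbrev Gam := (i : ℕ) → Gi i

noncomputable def E (i : ℕ) (a b : ℤ) : Gi i := Eu (a : ZMod (mm i)) (b : ZMod (mm i))

noncomputable def cc (i : ℕ) : Gi i := Pu (Equiv.addRight (1 : ZMod (mm i)))

lemma ne_of_ndvd {i : ℕ} {a b : ℤ} (h : ¬ (mm i : ℤ) ∣ b - a) :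
    (a : ZMod (mm i)) ≠ (b : ZMod (mm i)) := by
  intro he
  exact h ((ZMod.intCast_eq_intCast_iff_dvd_sub a b (mm i)).mp he)

lemma nd (i : ℕ) (t : ℤ) (h1 : t ≠ 0) (h2 : |t| < mm i) : ¬ (mm i : ℤ) ∣ t := by
  intro h
  exact h1 (Int.eq_zero_of_abs_lt_dvd h h2)

lemma E_congr {i : ℕ} {a b a' b' : ℤ} (ha : (mm i : ℤ) ∣ a' - a) (hb : (mm i : ℤ) ∣ b' - b) :
    E i a b = E i a' b' := by
  unfold E
  rw [(ZMod.intCast_eq_intCast_iff_dvd_sub a a' (mm i)).mpr ha,
    (ZMod.intCast_eq_intCast_iff_dvd_sub b b' (mm i)).mpr hb]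

lemma E_comm {i : ℕ} {a b d : ℤ} (h1 : ¬ (mm i : ℤ) ∣ b - a) (h2 : ¬ (mm i : ℤ) ∣ d - b)
    (h3 : ¬ (mm i : ℤ) ∣ d - a) :
    E i a b * E i b d * (E i a b)⁻¹ * (E i b d)⁻¹ = E i a d :=
  Eu_comm (ne_of_ndvd h1) (ne_of_ndvd h2) (ne_of_ndvd h3)

lemma E_commute {i : ℕ} {a b c d : ℤ} (h1 : ¬ (mm i : ℤ) ∣ b - a) (h2 : ¬ (mm i : ℤ) ∣ d - c)
    (h3 : ¬ (mm i : ℤ) ∣ c - b) (h4 : ¬ (mm i : ℤ) ∣ d - a) :
    Commute (E i a b) (E i c d) :=
  Eu_commute (ne_of_ndvd h1) (ne_of_ndvd h2) (ne_of_ndvd h3) (ne_of_ndvd h4)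

lemma shift_zpow (m : ℕ) (k : ℤ) : (Equiv.addRight (1 : ZMod m))^k = Equiv.addRight (k : ZMod m) := by
  induction k using Int.induction_on with
  | zero => ext a; simp
  | succ n ih =>
    rw [zpow_add_one, ih]
    apply Equiv.ext
    intro a
    simp only [Equiv.Perm.mul_apply, Equiv.coe_addRight]
    push_cast
    ring
  | pred n ih =>
    rw [zpow_sub_one, ih]
    apply Equiv.ext
    intro a
    rw [Equiv.Perm.mul_apply]
    have : (Equiv.addRight (1 : ZMod m))⁻¹ a = a - 1 := by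
      rw [Equiv.Perm.inv_eq_iff_eq]
      simp
    rw [this]
    simp only [Equiv.coe_addRight]
    push_cast
    ring

lemma cc_conj {i : ℕ} (k : ℤ) {a b : ℤ} (h1 : ¬ (mm i : ℤ) ∣ b - a) :
    (cc i)^k * E i a b * ((cc i)^k)⁻¹ = E i (a+k) (b+k) := by
  unfold cc E
  rw [← map_zpow, Pu_conj _ (ne_of_ndvd h1), shift_zpow]
  simp

noncomputable def xx : Gam := fun i => E i 0 1
noncomputable def yy : Gam := fun i => E i 1 0
noncomputable def ccc : Gam := fun i => cc i

noncomputable def G0 : Subgroup Gam := Subgroup.closure {xx, yy, ccc}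

lemma xx_mem : xx ∈ G0 := Subgroup.subset_closure (by simp)
lemma yy_mem : yy ∈ G0 := Subgroup.subset_closure (by simp)
lemma ccc_mem : ccc ∈ G0 := Subgroup.subset_closure (by simp)

lemma conj_x (i : ℕ) (k : ℤ) : (ccc^k * xx * (ccc^k)⁻¹) i = E i k (k+1) := by
  have h := cc_conj (i := i) k (a := 0) (b := 1) (nd i _ (by norm_num) (by have := mm_ge i; norm_num; omega))
  simp only [zero_add] at h
  rw [add_comm k 1, ← h]
  rfl

lemma conj_y (i : ℕ) (k : ℤ) : (ccc^k * yy * (ccc^k)⁻¹) i = E i (k+1) k := by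
  have h := cc_conj (i := i) k (a := 1) (b := 0) (nd i _ (by norm_num) (by have := mm_ge i; norm_num; omega))
  simp only [zero_add] at h
  rw [add_comm k 1, ← h]
  rfl

lemma conj_x_mem (k : ℤ) : ccc^k * xx * (ccc^k)⁻¹ ∈ G0 :=
  G0.mul_mem (G0.mul_mem (G0.zpow_mem ccc_mem _) xx_mem) (G0.inv_mem (G0.zpow_mem ccc_mem _))

lemma conj_y_mem (k : ℤ) : ccc^k * yy * (ccc^k)⁻¹ ∈ G0 :=
  G0.mul_mem (G0.mul_mem (G0.zpow_mem ccc_mem _) yy_mem) (G0.inv_mem (G0.zpow_mem ccc_mem _))

lemma single_mem (i : ℕ) : Pi.mulSingle i (E i 0 2) ∈ G0 := by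
  set k : ℤ := (mm i : ℤ) + 1 with hk
  have h1 : xx * (ccc^k * xx * (ccc^k)⁻¹) * xx⁻¹ * (ccc^k * xx * (ccc^k)⁻¹)⁻¹ ∈ G0 :=
    G0.mul_mem (G0.mul_mem (G0.mul_mem xx_mem (conj_x_mem k)) (G0.inv_mem xx_mem))
      (G0.inv_mem (conj_x_mem k))
  have h2 : xx * (ccc^k * xx * (ccc^k)⁻¹) * xx⁻¹ * (ccc^k * xx * (ccc^k)⁻¹)⁻¹
      = Pi.mulSingle i (E i 0 2) := by
    funext j
    have e : (xx * (ccc^k * xx * (ccc^k)⁻¹) * xx⁻¹ * (ccc^k * xx * (ccc^k)⁻¹)⁻¹) j
        = E j 0 1 * E j k (k+1) * (E j 0 1)⁻¹ * (E j k (k+1))⁻¹ := by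
      rw [← conj_x j k]; rfl
    rw [e]
    by_cases hj : j = i
    · subst hj
      rw [Pi.mulSingle_eq_same]
      have e2 : E j k (k+1) = E j 1 2 := by
        apply E_congr
        · rw [hk]; exact ⟨-1, by ring⟩
        · rw [hk]; exact ⟨-1, by ring⟩
      rw [e2]
      have hm := mm_ge j
      apply E_comm
      · exact nd j _ (by norm_num) (by norm_num; omega)
      · exact nd j _ (by norm_num) (by norm_num; omega)
      · exact nd j _ (by norm_num) (by norm_num; omega)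
    · rw [Pi.mulSingle_eq_of_ne hj]
      have hm := mm_ge j
      have hc : Commute (E j 0 1) (E j k (k+1)) := by
        apply E_commute
        · exact nd j _ (by norm_num) (by norm_num; omega)
        · have : k + 1 - k = 1 := by ring
          rw [this]
          exact nd j _ (by norm_num) (by norm_num; omega)
        · rw [hk]
          intro hd
          apply not_dvd1 hj
          have : (mm i : ℤ) + 1 - 1 = mm i := by ring
          rw [this] at hd
          exact_mod_cast hd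
        · rw [hk]
          intro hd
          apply not_dvd2 hj
          have : (mm i : ℤ) + 1 + 1 - 0 = ((mm i + 2 : ℕ) : ℤ) := by push_cast; ring
          rw [this] at hd
          exact_mod_cast hd
      rw [hc.eq]
      group
  rwa [h2] at h1

lemma proj_surj (i : ℕ) (s : Gi i) : ∃ g ∈ G0, g i = s := by
  set M : Subgroup (Gi i) := G0.map (Pi.evalMonoidHom _ i) with hM
  have hx : ∀ k : ℤ, E i k (k+1) ∈ M := by
    intro k
    exact ⟨_, conj_x_mem k, conj_x i k⟩
  have key : ∀ j : ℕ, 1 ≤ j → j < mm i → ∀ a : ℤ, E i a (a+j) ∈ M := by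
    intro j hj
    induction j, hj using Nat.le_induction with
    | base => intro _ a; exact_mod_cast hx a
    | succ j hj ih =>
      intro hlt a
      have h1 := hx a
      have h2 := ih (by omega) (a+1)
      have h3 : E i a (a+1) * E i (a+1) (a+1+j) * (E i a (a+1))⁻¹ * (E i (a+1) (a+1+j))⁻¹
          = E i a (a+1+j) := by
        have hm := mm_ge i
        apply E_comm
        · exact nd i _ (by ring_nf; norm_num) (by ring_nf; norm_num; omega)
        · have e : a + 1 + j - (a+1) = (j:ℤ) := by ring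
          rw [e]
          exact nd i _ (by omega) (by rw [abs_of_nonneg (by omega)]; omega)
        · have e : a + 1 + j - a = (j:ℤ) + 1 := by ring
          rw [e]
          exact nd i _ (by omega) (by rw [abs_of_nonneg (by omega)]; omega)
      have h4 : E i a (a+1+j) ∈ M := by
        rw [← h3]
        exact M.mul_mem (M.mul_mem (M.mul_mem h1 h2) (M.inv_mem h1)) (M.inv_mem h2)
      have e : a + ((j+1 : ℕ) : ℤ) = a + 1 + j := by push_cast; ring
      rw [e]
      exact h4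
  have htop : M = ⊤ := by
    apply eq_top_of_Eu
    intro a b hab
    have h1 := key (b - a).val (by
        rw [Nat.one_le_iff_ne_zero]
        intro h
        rw [ZMod.val_eq_zero] at h
        exact hab (sub_eq_zero.mp h).symm) (ZMod.val_lt _) (a.val : ℤ)
    unfold E at h1
    have e1 : (((a.val : ℕ) : ℤ) : ZMod (mm i)) = a := by
      rw [Int.cast_natCast, ZMod.natCast_zmod_val]
    have e2 : ((((a.val : ℕ) : ℤ) + (((b-a).val : ℕ) : ℤ) : ℤ) : ZMod (mm i)) = b := by
      rw [Int.cast_add, Int.cast_natCast, Int.cast_natCast, ZMod.natCast_zmod_val,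
        ZMod.natCast_zmod_val]
      ring
    rw [e1, e2] at h1
    exact h1
  have : s ∈ M := by rw [htop]; trivial
  obtain ⟨g, hg, h⟩ := this
  exact ⟨g, hg, h⟩

lemma mulSingle_mem (i : ℕ) (s : Gi i) : Pi.mulSingle i s ∈ G0 := by
  set N : Subgroup (Gi i) := G0.comap (MonoidHom.mulSingle _ i) with hN
  have hnorm : N.Normal := by
    constructor
    intro s hs t
    obtain ⟨g, hg, rfl⟩ := proj_surj i t
    have h1 : g * Pi.mulSingle i s * g⁻¹ ∈ G0 := G0.mul_mem (G0.mul_mem hg hs) (G0.inv_mem hg)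
    have h2 : g * Pi.mulSingle i s * g⁻¹ = Pi.mulSingle i (g i * s * (g i)⁻¹) := by
      funext j
      by_cases hj : j = i
      · subst hj; simp
      · simp [Pi.mulSingle_eq_of_ne hj]
    rw [h2] at h1
    exact h1
  have htop : N = ⊤ := by
    have hm := mm_ge i
    have h0 : (((0:ℤ)) : ZMod (mm i)) ≠ ((2 : ℤ) : ZMod (mm i)) :=
      ne_of_ndvd (nd i _ (by norm_num) (by norm_num; omega))
    apply eq_top_of_normal (by rw [ZMod.card]; omega) N h0
    exact single_mem i
  have : s ∈ N := by rw [htop]; trivial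
  exact this

end Pool.Agent.H570R3
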