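import Mathlib

set_option autoImplicit false
open Matrix

namespace Pool.Agent.H570R3

section ring
variable {R : Type} [Ring R]

lemma ring_comm_id (h2 : ∀ r : R, r + r = 0) (u v : R) (hu : u*u = 0) (hv : v*v = 0)
    (hvu : v*u = 0) : (1+u)*(1+v)*(1+u)*(1+v) = 1 + u*v := by
  have e : (1+u)*(1+v)*(1+u)*(1+v) = 1 + u*v + (u + u) + (v+v) + (u*v + u*v) + (u*u) + u*u*v
     + (v*v) + (u*(v*v)) + v*u + v*u*v + u*(v*u) + u*(v*u)*v + (u*(v*v) - u*v*v) := by noncomm_ring
  rw [e]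
  simp only [h2, hu, hv, hvu, mul_zero, zero_mul, add_zero, mul_assoc, sub_self]

lemma ring_braid_id (h2 : ∀ r : R, r + r = 0) (u v : R) (hu : u*u = 0) (hv : v*v = 0)
    (huvu : u*v*u = u) (hvuv : v*u*v = v) : (1+u)*(1+v)*(1+u)*(1+v)*(1+u) = 1 + v := by
  have e1 : (1+u)*(1+v)*(1+u) = 1 + v + u*v + v*u + (u + u) + u*u + u*v*u := by noncomm_ring
  have e2 : (1+u)*(1+v)*(1+u) = 1 + v + u*v + v*u + u := by
    rw [e1, h2, hu, huvu]; simp
  have e3 : (1 + v + u*v + v*u + u)*(1+v) = 1 + v + v*u + u + (v + v*v) + (u*v+u*v) + u*(v*v) + v*u*v := by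
    noncomm_ring
  have e4 : (1 + v + u*v + v*u + u)*(1+v) = 1 + v + v*u + u := by
    rw [e3, h2, hv, hvuv]; simp [add_assoc, h2]
  have e5 : (1 + v + v*u + u) * (1+u) = 1 + v + (v*u + v*u) + (u + u) + v*(u*u) + u*u := by
    noncomm_ring
  have e6 : (1 + v + v*u + u) * (1+u) = 1 + v := by
    rw [e5, h2, h2, hu]; simp
  rw [e2, e4, e6]

end ring

variable {ι : Type} [Fintype ι] [DecidableEq ι]

abbrev S (ι : Type) [Fintype ι] [DecidableEq ι] := (Matrix ι ι (ZMod 2))ˣ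

lemma two0 (A : Matrix ι ι (ZMod 2)) : A + A = 0 := by
  ext i j
  simp only [Matrix.add_apply, Matrix.zero_apply]
  generalize A i j = t
  revert t; decide

/-- matrix unit -/
abbrev mu (a b : ι) : Matrix ι ι (ZMod 2) := Matrix.single a b 1

lemma mu_mul_same (a b c : ι) : mu a b * mu b c = mu a c := by
  simp [mu]

lemma mu_mul_ne (a b c d : ι) (h : b ≠ c) : mu a b * mu c d = 0 := by
  simp [mu, h]

lemma mu_inv {a b : ι} (h : a ≠ b) : (1 + mu a b) * (1 + mu a b) = 1 := by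
  rw [mul_add, add_mul, add_mul, mu_mul_ne _ _ _ _ h.symm]
  simp [add_assoc, two0]

/-- elementary unit -/
noncomputable def Eu (a b : ι) : S ι :=
  if h : a ≠ b then
    ⟨1 + mu a b, 1 + mu a b, mu_inv h, mu_inv h⟩
  else 1

lemma Eu_val {a b : ι} (h : a ≠ b) : ((Eu a b : S ι) : Matrix ι ι (ZMod 2)) = 1 + mu a b := by
  unfold Eu; rw [dif_pos h]

lemma Eu_sq (a b : ι) : Eu a b * Eu a b = 1 := by
  by_cases h : a ≠ b
  · apply Units.ext
    rw [Units.val_mul, Eu_val h, mu_inv h]; rfl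
  · unfold Eu; rw [dif_neg h]; simp

lemma Eu_inv (a b : ι) : (Eu a b)⁻¹ = Eu a b := by
  rw [inv_eq_iff_mul_eq_one]; exact Eu_sq a b

lemma Eu_comm {a b d : ι} (hab : a ≠ b) (hbd : b ≠ d) (had : a ≠ d) :
    Eu a b * Eu b d * (Eu a b)⁻¹ * (Eu b d)⁻¹ = Eu a d := by
  rw [Eu_inv, Eu_inv]
  apply Units.ext
  simp only [Units.val_mul, Eu_val hab, Eu_val hbd, Eu_val had]
  rw [ring_comm_id two0 _ _ (mu_mul_ne _ _ _ _ hab.symm) (mu_mul_ne _ _ _ _ hbd.symm)
    (mu_mul_ne _ _ _ _ had.symm), mu_mul_same]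

lemma Eu_commute {a b c d : ι} (hab : a ≠ b) (hcd : c ≠ d) (hbc : b ≠ c) (had : a ≠ d) :
    Commute (Eu a b) (Eu c d) := by
  unfold Commute SemiconjBy
  apply Units.ext
  simp only [Units.val_mul, Eu_val hab, Eu_val hcd]
  rw [mul_add, add_mul, add_mul, mul_add, add_mul, add_mul, mu_mul_ne _ _ _ _ hbc,
    mu_mul_ne _ _ _ _ had.symm]
  simp; abel

lemma Eu_braid {a b : ι} (hab : a ≠ b) :
    Eu a b * Eu b a * Eu a b * Eu b a * Eu a b = Eu b a := by
  apply Units.ext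
  simp only [Units.val_mul, Eu_val hab, Eu_val hab.symm]
  apply ring_braid_id two0
  · exact mu_mul_ne _ _ _ _ hab.symm
  · exact mu_mul_ne _ _ _ _ hab
  · rw [mu_mul_same, mu_mul_same]
  · rw [mu_mul_same, mu_mul_same]

lemma Eu_ne_one {a b : ι} (hab : a ≠ b) : Eu a b ≠ 1 := by
  intro h
  have h1 := congrArg (fun g : S ι => (g : Matrix ι ι (ZMod 2)) a b) h
  simp only [Eu_val hab] at h1
  simp [mu, hab] at h1

/-- A subgroup containing all the elementary units is everything. -/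
lemma eq_top_of_Eu (N : Subgroup (S ι)) (h : ∀ a b : ι, a ≠ b → Eu a b ∈ N) : N = ⊤ := by
  rw [eq_top_iff]
  rintro g -
  have key : ∀ M : Matrix ι ι (ZMod 2), M.det ≠ 0 → ∃ n ∈ N, (n : Matrix ι ι (ZMod 2)) = M := by
    intro M hM
    apply Matrix.diagonal_transvection_induction_of_det_ne_zero
      (fun M => ∃ n ∈ N, (n : Matrix ι ι (ZMod 2)) = M) M hM
    · intro D hD
      refine ⟨1, N.one_mem, ?_⟩
      rw [Matrix.det_diagonal, Finset.prod_ne_zero_iff] at hD
      have : D = fun _ => 1 := by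
        funext i
        have := hD i (Finset.mem_univ i)
        revert this
        generalize D i = t
        revert t; decide
      rw [this]; simp
    · rintro ⟨i, j, hij, c⟩
      have hc : c = 0 ∨ c = 1 := by revert c; decide
      rcases hc with rfl | rfl
      · exact ⟨1, N.one_mem, by simp [TransvectionStruct.toMatrix, transvection]⟩
      · exact ⟨Eu i j, h i j hij, by rw [Eu_val hij]; simp [TransvectionStruct.toMatrix, transvection]⟩
    · rintro A B - - ⟨n1, h1, rfl⟩ ⟨n2, h2, rfl⟩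
      exact ⟨n1 * n2, N.mul_mem h1 h2, by simp⟩
  have hdet : (g : Matrix ι ι (ZMod 2)).det ≠ 0 := by
    have := (Matrix.isUnit_iff_isUnit_det (g : Matrix ι ι (ZMod 2))).mp g.isUnit
    exact this.ne_zero
  obtain ⟨n, hn, hn'⟩ := key _ hdet
  have : n = g := Units.ext hn'
  rwa [← this]

lemma comm_mem {G : Type} [Group G] (N : Subgroup G) [hN : N.Normal] (g h : G) (hh : h ∈ N) :
    g * h * g⁻¹ * h⁻¹ ∈ N := N.mul_mem (hN.conj_mem h hh g) (N.inv_mem hh)

lemma comm_mem' {G : Type} [Group G] (N : Subgroup G) [hN : N.Normal] (g h : G) (hh : h ∈ N) :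
    h * g * h⁻¹ * g⁻¹ ∈ N := by
  have : h * g * h⁻¹ * g⁻¹ = h * (g * h⁻¹ * g⁻¹) := by group
  rw [this]
  exact N.mul_mem hh (hN.conj_mem _ (N.inv_mem hh) g)

/-- A normal subgroup containing one elementary unit is everything. -/
lemma eq_top_of_normal (hcard : 3 ≤ Fintype.card ι) (N : Subgroup (S ι)) [hN : N.Normal]
    {a b : ι} (hab : a ≠ b) (h : Eu a b ∈ N) : N = ⊤ := by
  have mv1 : ∀ {a b d : ι}, a ≠ b → d ≠ b → Eu a b ∈ N → Eu d b ∈ N := by
    intro a b d hab hdb h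
    by_cases hda : d = a
    · rwa [hda]
    · rw [← Eu_comm hda hab hdb]
      exact comm_mem N _ _ h
  have mv2 : ∀ {a b d : ι}, a ≠ b → a ≠ d → Eu a b ∈ N → Eu a d ∈ N := by
    intro a b d hab had h
    by_cases hdb : b = d
    · rwa [← hdb]
    · rw [← Eu_comm hab hdb had]
      exact comm_mem' N _ _ h
  obtain ⟨d, hd⟩ : ∃ d : ι, d ∉ ({a, b} : Finset ι) := by
    by_contra hcon
    push Not at hcon
    have h1 : (Finset.univ : Finset ι) ⊆ {a, b} := fun x _ => hcon x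
    have h2 := Finset.card_le_card h1
    have h3 : ({a, b} : Finset ι).card ≤ 2 := Finset.card_le_two
    rw [Finset.card_univ] at h2
    omega
  have hda : d ≠ a := by rintro rfl; simp at hd
  have hdb : d ≠ b := by rintro rfl; simp at hd
  apply eq_top_of_Eu
  intro a' b' hab'
  by_cases hb : b' = a
  · have h1 : Eu d b ∈ N := mv1 hab hdb h
    have h2 : Eu d a ∈ N := mv2 hdb hda h1
    rw [hb]
    apply mv1 hda _ h2
    rw [← hb]; exact hab'
  · have h1 : Eu a b' ∈ N := mv2 hab (Ne.symm hb) h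
    exact mv1 (Ne.symm hb) hab' h1

end Pool.Agent.H570R3
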