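import Pool.Agent.H570R3.Lin

set_option autoImplicit false
open Matrix

namespace Pool.Agent.H570R3

variable {ι : Type} [Fintype ι] [DecidableEq ι]

lemma mu_sandwich (i j a k : ι) (M : Matrix ι ι (ZMod 2)) :
    mu i j * M * mu a k = Matrix.single i k (M j a) := by
  simp [mu]

lemma z2_ne_zero {t : ZMod 2} (h : t ≠ 0) : t = 1 := by revert h; revert t; decide

lemma z2_add_eq {s t : ZMod 2} (h : s ≠ t) : s + t = 1 := by revert h; revert s t; decide

lemma eq_top_of_row (hcard : 3 ≤ Fintype.card ι) (N : Subgroup (S ι)) [hN : N.Normal]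
    (h : S ι) (hh : h ∈ N) (k : ι)
    (hrow : ∀ j, (h : Matrix ι ι (ZMod 2)) k j = (1 : Matrix ι ι (ZMod 2)) k j)
    {a j' : ι} (hak : a ≠ k)
    (hj : (h : Matrix ι ι (ZMod 2)) j' a ≠ (1 : Matrix ι ι (ZMod 2)) j' a) : N = ⊤ := by
  have hj'k : j' ≠ k := by
    rintro rfl
    exact hj (hrow a)
  -- mu a k * h = mu a k
  have hmk : mu a k * (h : Matrix ι ι (ZMod 2)) = mu a k := by
    ext x y
    by_cases hx : x = a
    · subst hx
      simp only [mu, Matrix.single_mul_apply_same, one_mul]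
      rw [hrow]
      by_cases hy : y = k
      · subst hy; simp
      · simp [Matrix.one_apply, Ne.symm hy]
    · rw [Matrix.single_mul_apply_of_ne _ _ _ _ _ hx]
      simp [Matrix.single, Ne.symm hx]
  have hmk' : mu a k * ((h⁻¹ : S ι) : Matrix ι ι (ZMod 2)) = mu a k := by
    calc mu a k * ((h⁻¹ : S ι) : Matrix ι ι (ZMod 2))
        = (mu a k * (h : Matrix ι ι (ZMod 2))) * ((h⁻¹ : S ι) : Matrix ι ι (ZMod 2)) := by rw [hmk]
      _ = mu a k := by rw [mul_assoc, ← Units.val_mul]; simp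
  set Q : Matrix ι ι (ZMod 2) := ((h : Matrix ι ι (ZMod 2)) + 1) * mu a k with hQ
  have hkk : mu a k * mu a k = 0 := mu_mul_ne _ _ _ _ hak.symm
  have hmQ : mu a k * ((h : Matrix ι ι (ZMod 2)) + 1) = 0 := by
    rw [mul_add, hmk, mul_one, two0]
  have hQQ : Q * Q = 0 := by
    rw [hQ]
    calc ((h : Matrix ι ι (ZMod 2)) + 1) * mu a k * (((h : Matrix ι ι (ZMod 2)) + 1) * mu a k)
        = ((h : Matrix ι ι (ZMod 2)) + 1) * (mu a k * ((h : Matrix ι ι (ZMod 2)) + 1)) * mu a k := by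
          simp only [mul_assoc]
      _ = 0 := by rw [hmQ]; simp
  have htt : (1 + Q) * (1 + Q) = 1 := by
    rw [mul_add, add_mul, add_mul, hQQ]; simp [add_assoc, two0]
  let t : S ι := ⟨1 + Q, 1 + Q, htt, htt⟩
  have htinv : t⁻¹ = t := by
    rw [inv_eq_iff_mul_eq_one]; apply Units.ext; exact htt
  have htN : t ∈ N := by
    have h1 := comm_mem' N (Eu a k) h hh
    have h2 : h * Eu a k * h⁻¹ * (Eu a k)⁻¹ = t := by
      rw [Eu_inv]
      apply Units.ext
      simp only [Units.val_mul, Eu_val hak]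
      show _ = 1 + Q
      have e1 : (h : Matrix ι ι (ZMod 2)) * (1 + mu a k) * ((h⁻¹ : S ι) : Matrix ι ι (ZMod 2))
          = 1 + (h : Matrix ι ι (ZMod 2)) * mu a k := by
        rw [mul_add, add_mul, mul_one, mul_assoc _ (mu a k), hmk', ← Units.val_mul]; simp
      have e2 : (h : Matrix ι ι (ZMod 2)) * mu a k * mu a k = 0 := by rw [mul_assoc, hkk, mul_zero]
      rw [e1, hQ, mul_add, add_mul, add_mul, e2]
      simp [add_mul]
      abel
    rwa [h2] at h1
  obtain ⟨i, hi⟩ : ∃ d : ι, d ∉ ({k, j'} : Finset ι) := by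
    by_contra hcon
    push Not at hcon
    have h1 : (Finset.univ : Finset ι) ⊆ {k, j'} := fun x _ => hcon x
    have h2 := Finset.card_le_card h1
    have h3 : ({k, j'} : Finset ι).card ≤ 2 := Finset.card_le_two
    rw [Finset.card_univ] at h2
    omega
  have hik : i ≠ k := by rintro rfl; simp at hi
  have hij : i ≠ j' := by rintro rfl; simp at hi
  have hfin : Eu i k ∈ N := by
    have h1 := comm_mem N (Eu i j') t htN
    have h2 : Eu i j' * t * (Eu i j')⁻¹ * t⁻¹ = Eu i k := by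
      rw [Eu_inv, htinv]
      apply Units.ext
      simp only [Units.val_mul, Eu_val hij, Eu_val hik]
      show (1 + mu i j') * (1 + Q) * (1 + mu i j') * (1 + Q) = _
      rw [ring_comm_id two0 _ _ (mu_mul_ne _ _ _ _ hij.symm) hQQ]
      · congr 1
        rw [hQ, ← mul_assoc, mu_sandwich]
        rw [Matrix.add_apply, z2_add_eq hj]
      · rw [hQ, mul_assoc, mu_mul_ne _ _ _ _ hik.symm, mul_zero]
    rwa [h2] at h1
  exact eq_top_of_normal hcard N hik hfin

/-- block embedding -/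
noncomputable def blk {j r : ℕ} (e : Fin j ⊕ Fin r ≃ ι) :
    Matrix (Fin j) (Fin j) (ZMod 2) →* Matrix ι ι (ZMod 2) where
  toFun M := (Matrix.fromBlocks M 0 0 1).submatrix e.symm e.symm
  map_one' := by simp [Matrix.fromBlocks_one]
  map_mul' A B := by
    rw [Matrix.submatrix_mul_equiv _ _ e.symm e.symm e.symm, Matrix.fromBlocks_multiply]
    simp

lemma singer (j r : ℕ) (hj : 1 ≤ j) (e : Fin j ⊕ Fin (r+1) ≃ ι) (n : ℕ) (hn : ¬ (2^j - 1 ∣ n)) :
    ∃ h : S ι, ∃ k a j' : ι,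
      (∀ y, ((h^n : S ι) : Matrix ι ι (ZMod 2)) k y = (1 : Matrix ι ι (ZMod 2)) k y) ∧ a ≠ k ∧
      ((h^n : S ι) : Matrix ι ι (ZMod 2)) j' a ≠ (1 : Matrix ι ι (ZMod 2)) j' a := by
  have : Fact (Nat.Prime 2) := ⟨Nat.prime_two⟩
  have hj0 : j ≠ 0 := by omega
  obtain ⟨ω, hω⟩ : ∃ ω : (GaloisField 2 j)ˣ, ω ^ n ≠ 1 := by
    by_contra hcon
    push Not at hcon
    apply hn
    have h1 : Monoid.exponent (GaloisField 2 j)ˣ ∣ n := Monoid.exponent_dvd_of_forall_pow_eq_one hcon
    rw [IsCyclic.exponent_eq_card, Nat.card_units, GaloisField.card 2 j hj0] at h1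
    exact h1
  let b : Module.Basis (Fin j) (ZMod 2) (GaloisField 2 j) :=
    Module.finBasisOfFinrankEq _ _ (GaloisField.finrank 2 hj0)
  let φ : GaloisField 2 j →* Matrix ι ι (ZMod 2) :=
    (blk e).comp (Algebra.leftMulMatrix b : GaloisField 2 j →* Matrix (Fin j) (Fin j) (ZMod 2))
  refine ⟨Units.map φ ω, e (Sum.inr 0), ?_⟩
  have hne : Algebra.leftMulMatrix b ((ω ^ n : (GaloisField 2 j)ˣ) : GaloisField 2 j) ≠ 1 := by
    intro h
    apply hω
    apply Units.ext
    apply Algebra.leftMulMatrix_injective b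
    rw [h]; simp
  obtain ⟨x, y, hxy⟩ : ∃ x y, Algebra.leftMulMatrix b ((ω ^ n : (GaloisField 2 j)ˣ) : GaloisField 2 j) x y ≠ (1 : Matrix (Fin j) (Fin j) (ZMod 2)) x y := by
    by_contra hcon
    push Not at hcon
    exact hne (Matrix.ext hcon)
  refine ⟨e (Sum.inl y), e (Sum.inl x), ?_, ?_, ?_⟩
  · intro z
    rw [← map_pow]
    obtain ⟨z', rfl⟩ := e.surjective z
    show (blk e (Algebra.leftMulMatrix b ((ω ^ n : (GaloisField 2 j)ˣ) : GaloisField 2 j))) _ _ = _
    simp only [blk, MonoidHom.coe_mk, OneHom.coe_mk, Matrix.submatrix_apply, Equiv.symm_apply_apply]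
    rcases z' with z' | z'
    · simp [Matrix.one_apply]
    · simp [Matrix.one_apply]
  · intro h
    have := e.injective h
    simp at this
  · rw [← map_pow]
    show (blk e (Algebra.leftMulMatrix b ((ω ^ n : (GaloisField 2 j)ˣ) : GaloisField 2 j))) _ _ ≠ _
    simp only [blk, MonoidHom.coe_mk, OneHom.coe_mk, Matrix.submatrix_apply, Equiv.symm_apply_apply,
      Matrix.fromBlocks_apply₁₁]
    intro h
    apply hxy
    rw [h]
    simp [Matrix.one_apply]

/-- permutation matrices -/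
def PmatF (σ : Equiv.Perm ι) : Matrix ι ι (ZMod 2) :=
  fun (i j : ι) => if i = σ j then (1 : ZMod 2) else 0

def Pmat : Equiv.Perm ι →* Matrix ι ι (ZMod 2) where
  toFun σ := PmatF σ
  map_one' := by
    ext i j
    by_cases h : i = j
    · subst h; simp [PmatF]
    · rw [Matrix.one_apply_ne h]; exact if_neg h
  map_mul' σ τ := by
    ext i j
    show (if i = σ (τ j) then (1 : ZMod 2) else 0) = _
    simp only [Matrix.mul_apply, PmatF]
    rw [Finset.sum_eq_single (τ j)]
    · rw [if_pos rfl, mul_one]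
    · intro b _ hb
      rw [if_neg hb, mul_zero]
    · intro h; exact absurd (Finset.mem_univ _) h

lemma Pmat_mul_mu (σ : Equiv.Perm ι) (a b : ι) : Pmat σ * mu a b = mu (σ a) (σ b) * Pmat σ := by
  ext i j
  simp only [Matrix.mul_apply, Pmat, MonoidHom.coe_mk, OneHom.coe_mk, PmatF, mu,
    Matrix.single_apply]
  rw [Finset.sum_eq_single a, Finset.sum_eq_single (σ b)]
  · by_cases h1 : i = σ a <;> by_cases h2 : b = j
    · subst h1; subst h2; simp
    · subst h1; simp [h2]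
    · subst h2; simp [h1, Ne.symm h1]
    · simp [h1, h2]
  · intro c _ hc
    simp [Ne.symm hc]
  · intro h; exact absurd (Finset.mem_univ _) h
  · intro c _ hc
    simp [Ne.symm hc]
  · intro h; exact absurd (Finset.mem_univ _) h

noncomputable def Pu : Equiv.Perm ι →* S ι := (Pmat (ι := ι)).toHomUnits

lemma Pu_val (σ : Equiv.Perm ι) : ((Pu σ : S ι) : Matrix ι ι (ZMod 2)) = Pmat σ := rfl

lemma Pu_conj (σ : Equiv.Perm ι) {a b : ι} (hab : a ≠ b) :
    Pu σ * Eu a b * (Pu σ)⁻¹ = Eu (σ a) (σ b) := by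
  rw [mul_inv_eq_iff_eq_mul]
  apply Units.ext
  have h : σ a ≠ σ b := fun h => hab (σ.injective h)
  rw [Units.val_mul, Units.val_mul, Eu_val hab, Eu_val h, Pu_val, mul_add, add_mul, Pmat_mul_mu]
  simp

end Pool.Agent.H570R3
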