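import Pool.Agent.H570R3.Grp

set_option autoImplicit false

namespace Pool.Agent.H570R3

abbrev GG : Type := ↥G0

/-- coordinate embedding -/
noncomputable def psi (i : ℕ) : Gi i →* GG :=
  (MonoidHom.mulSingle _ i).codRestrict G0 (fun s => mulSingle_mem i s)

lemma psi_coe (i : ℕ) (s : Gi i) : ((psi i s : GG) : Gam) = Pi.mulSingle i s := rfl

/-- the subgroup generated by `n`-th powers -/
def AA {G : Type} [Group G] (n : ℕ) : Subgroup G := Subgroup.closure {x : G | ∃ g : G, g ^ n = x}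

instance AA_normal {G : Type} [Group G] (n : ℕ) : (AA n : Subgroup G).Normal := by
  constructor
  intro a ha g
  unfold AA at ha ⊢
  induction ha using Subgroup.closure_induction with
  | mem x hx =>
    obtain ⟨h, rfl⟩ := hx
    apply Subgroup.subset_closure
    exact ⟨g * h * g⁻¹, by rw [conj_pow]⟩
  | one => simp
  | mul x y _ _ hx hy =>
    have : g * (x * y) * g⁻¹ = (g * x * g⁻¹) * (g * y * g⁻¹) := by group
    rw [this]; exact Subgroup.mul_mem _ hx hy
  | inv x _ hx =>
    have : g * x⁻¹ * g⁻¹ = (g * x * g⁻¹)⁻¹ := by group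
    rw [this]; exact Subgroup.inv_mem _ hx

lemma pow_mem_AA {G : Type} [Group G] (n : ℕ) (g : G) : g ^ n ∈ (AA n : Subgroup G) :=
  Subgroup.subset_closure ⟨g, rfl⟩

/-- the index i is bad for n -/
def Bad (n i : ℕ) : Prop := ∀ j : ℕ, 1 ≤ j → j ≤ mm i - 1 → (2^j - 1) ∣ n

lemma dichotomy (n i : ℕ) (hb : ¬ Bad n i) (s : Gi i) : psi i s ∈ (AA n : Subgroup GG) := by
  unfold Bad at hb
  push Not at hb
  obtain ⟨j, hj1, hj2, hnd⟩ := hb
  have hm := mm_ge i
  obtain ⟨r, hr⟩ : ∃ r, mm i = j + (r+1) := ⟨mm i - j - 1, by omega⟩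
  have e : Fin j ⊕ Fin (r+1) ≃ ZMod (mm i) := by
    apply Fintype.equivOfCardEq
    rw [ZMod.card, Fintype.card_sum, Fintype.card_fin, Fintype.card_fin, hr]
  obtain ⟨h, k, a, j', hrow, hak, hj'⟩ := singer j r hj1 e n hnd
  have hN : (AA n : Subgroup GG).comap (psi i) = ⊤ := by
    apply eq_top_of_row (by rw [ZMod.card]; omega) _ (h^n) _ k hrow hak hj'
    show psi i (h^n) ∈ (AA n : Subgroup GG)
    rw [map_pow]
    exact pow_mem_AA n _
  have : s ∈ (AA n : Subgroup GG).comap (psi i) := by rw [hN]; trivial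
  exact this

/-- elements supported on `B` -/
def KK (B : Finset ℕ) : Subgroup GG where
  carrier := {g | ∀ i, i ∉ B → (g : Gam) i = 1}
  one_mem' := by intro i _; rfl
  mul_mem' := by
    intro a b ha hb i hi
    show (a : Gam) i * (b : Gam) i = 1
    rw [ha i hi, hb i hi, one_mul]
  inv_mem' := by
    intro a ha i hi
    show ((a : Gam) i)⁻¹ = 1
    rw [ha i hi, inv_one]

instance KK_normal (B : Finset ℕ) : (KK B).Normal := by
  constructor
  intro a ha g i hi
  show (g : Gam) i * (a : Gam) i * ((g : Gam) i)⁻¹ = 1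
  rw [ha i hi]; group

lemma fin_supp (H : Subgroup GG) (T : Finset ℕ) (hT : ∀ i ∈ T, ∀ s : Gi i, psi i s ∈ H) (g : GG)
    (hg : ∀ i, i ∉ T → (g : Gam) i = 1) : g ∈ H := by
  induction T using Finset.induction_on generalizing g with
  | empty =>
    have : g = 1 := by
      apply Subtype.ext
      funext i
      exact hg i (by simp)
    rw [this]; exact H.one_mem
  | insert t T ht ih =>
    have h1 : g * (psi t ((g : Gam) t))⁻¹ ∈ H := by
      apply ih
      · intro i hi s
        exact hT i (Finset.mem_insert_of_mem hi) s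
      · intro i hi
        show (g : Gam) i * ((Pi.mulSingle t ((g : Gam) t) : Gam) i)⁻¹ = 1
        by_cases h : i = t
        · subst h; simp
        · rw [Pi.mulSingle_eq_of_ne h, hg i (by simp [h, hi])]; simp
    have h2 : g = g * (psi t ((g : Gam) t))⁻¹ * psi t ((g : Gam) t) := by group
    rw [h2]
    exact H.mul_mem h1 (hT t (Finset.mem_insert_self _ _) _)

noncomputable def X : GG := ⟨xx, xx_mem⟩
noncomputable def Y : GG := ⟨yy, yy_mem⟩
noncomputable def C : GG := ⟨ccc, ccc_mem⟩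

lemma z_form (n : ℕ) : ∀ i, n + 2 < mm i → ∃ z' : Gi i,
    (((X * C)^(n+1) * (C^(n+1))⁻¹ : GG) : Gam) i = E i 0 1 * z' ∧ Commute (E i (-1) 0) z' := by
  induction n with
  | zero =>
    intro i _
    refine ⟨1, ?_, Commute.one_right _⟩
    rw [zero_add, pow_one, pow_one, mul_one, mul_inv_cancel_right]
    rfl
  | succ n ih =>
    intro i hi
    obtain ⟨z', h1, h2⟩ := ih i (by omega)
    refine ⟨z' * E i ((n:ℤ)+1) ((n:ℤ)+1+1), ?_, ?_⟩
    · have e : (X * C)^(n+1+1) * (C^(n+1+1))⁻¹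
          = ((X * C)^(n+1) * (C^(n+1))⁻¹) * (C^(n+1) * X * (C^(n+1))⁻¹) := by
        rw [pow_succ (X*C) (n+1), pow_succ C (n+1)]
        group
      rw [e, Subgroup.coe_mul, Pi.mul_apply, h1]
      have e2 : ((C^(n+1) * X * (C^(n+1))⁻¹ : GG) : Gam) i = E i ((n:ℤ)+1) ((n:ℤ)+1+1) := by
        rw [← conj_x i ((n:ℤ)+1)]
        have : (ccc^((n:ℤ)+1) : Gam) = ccc^(n+1) := by
          rw [← zpow_natCast]; push_cast; rfl
        rw [this]
        rfl
      rw [e2, mul_assoc]
    · apply h2.mul_right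
      apply E_commute
      · exact nd i _ (by norm_num) (by norm_num; omega)
      · have e : (n:ℤ) + 1 + 1 - ((n:ℤ)+1) = 1 := by ring
        rw [e]
        exact nd i _ (by norm_num) (by norm_num; omega)
      · exact nd i _ (by omega) (by rw [abs_of_nonneg (by omega)]; omega)
      · exact nd i _ (by omega) (by rw [abs_of_nonneg (by omega)]; omega)

/-- `x` agrees in almost all coordinates with an element of `A_n`. -/
lemma X_almost (n : ℕ) (hn : 0 < n) : ∃ g : GG, g ∈ (AA n : Subgroup GG) ∧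
    ∀ i, n + 1 < mm i → (g : Gam) i = E i 0 1 := by
  obtain ⟨n, rfl⟩ : ∃ m, n = m + 1 := ⟨n-1, by omega⟩
  set z : GG := (X * C)^(n+1) * (C^(n+1))⁻¹ with hz
  have hzA : z ∈ (AA (n+1) : Subgroup GG) :=
    Subgroup.mul_mem _ (pow_mem_AA _ _) (Subgroup.inv_mem _ (pow_mem_AA _ _))
  set X' : GG := ⟨ccc^(-1:ℤ) * xx * (ccc^(-1:ℤ))⁻¹, conj_x_mem (-1)⟩ with hX'
  set Y' : GG := ⟨ccc^(-1:ℤ) * yy * (ccc^(-1:ℤ))⁻¹, conj_y_mem (-1)⟩ with hY'
  have h1 := comm_mem _ X' z hzA
  have h2 := comm_mem _ Y' _ h1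
  refine ⟨_, h2, ?_⟩
  intro i hi
  obtain ⟨z', e1, e2⟩ := z_form n i (by omega)
  have hXi : (X' : Gam) i = E i (-1) 0 := by
    have := conj_x i (-1)
    rw [show (-1:ℤ)+1 = 0 by norm_num] at this
    exact this
  have hYi : (Y' : Gam) i = E i 0 (-1) := by
    have := conj_y i (-1)
    rw [show (-1:ℤ)+1 = 0 by norm_num] at this
    exact this
  have hm := mm_ge i
  have h3 : ((X' * z * X'⁻¹ * z⁻¹ : GG) : Gam) i = E i (-1) 1 := by
    show (X' : Gam) i * (z : Gam) i * ((X' : Gam) i)⁻¹ * ((z : Gam) i)⁻¹ = _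
    rw [hXi, e1]
    have h4 : E i (-1) 0 * (E i 0 1 * z') * (E i (-1) 0)⁻¹ * (E i 0 1 * z')⁻¹
        = E i (-1) 0 * E i 0 1 * (E i (-1) 0)⁻¹ * (E i 0 1)⁻¹ := by
      have h5 : z' * (E i (-1) 0)⁻¹ = (E i (-1) 0)⁻¹ * z' := (e2.inv_left.eq).symm
      calc E i (-1) 0 * (E i 0 1 * z') * (E i (-1) 0)⁻¹ * (E i 0 1 * z')⁻¹
          = E i (-1) 0 * E i 0 1 * (z' * (E i (-1) 0)⁻¹) * z'⁻¹ * (E i 0 1)⁻¹ := by group
        _ = _ := by rw [h5]; group
    rw [h4]
    apply E_comm
    · exact nd i _ (by norm_num) (by norm_num; omega)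
    · exact nd i _ (by norm_num) (by norm_num; omega)
    · exact nd i _ (by norm_num) (by norm_num; omega)
  show (Y' : Gam) i * ((X' * z * X'⁻¹ * z⁻¹ : GG) : Gam) i * ((Y' : Gam) i)⁻¹ *
    (((X' * z * X'⁻¹ * z⁻¹ : GG) : Gam) i)⁻¹ = _
  rw [h3, hYi]
  apply E_comm
  · exact nd i _ (by norm_num) (by norm_num; omega)
  · exact nd i _ (by norm_num) (by norm_num; omega)
  · exact nd i _ (by norm_num) (by norm_num; omega)

lemma Y_of_X : Y = (X * Y * X) * X * (X * Y * X)⁻¹ := by
  have hxx : X * X = 1 := by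
    apply Subtype.ext; funext i; exact Eu_sq _ _
  have hyy : Y * Y = 1 := by
    apply Subtype.ext; funext i; exact Eu_sq _ _
  have hbr : X * Y * X * Y * X = Y := by
    apply Subtype.ext; funext i
    have hm := mm_ge i
    exact Eu_braid (ne_of_ndvd (nd i _ (by norm_num) (by norm_num; omega)))
  have hxi : X⁻¹ = X := by rw [inv_eq_iff_mul_eq_one]; exact hxx
  have hyi : Y⁻¹ = Y := by rw [inv_eq_iff_mul_eq_one]; exact hyy
  rw [mul_inv_rev, mul_inv_rev, hxi, hyi]
  calc Y = X * Y * X * Y * X := hbr.symm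
    _ = X * Y * X * (X * X) * Y * X := by rw [hxx, mul_one]
    _ = _ := by simp only [mul_assoc]

open Classical in
/-- the finite set of bad indices -/
noncomputable def BB (n : ℕ) : Finset ℕ := (Finset.range n).filter (fun i => Bad n i)

lemma mem_BB {n i : ℕ} (hn : 0 < n) (h : Bad n i) : i ∈ BB n := by
  classical
  unfold BB
  rw [Finset.mem_filter]
  refine ⟨?_, h⟩
  have hm := lt_mm i
  have h1 := h (mm i - 1) (by omega) le_rfl
  have h2 := Nat.le_of_dvd hn h1
  have h3 : mm i - 1 < 2^(mm i - 1) := Nat.lt_two_pow_self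
  rw [Finset.mem_range]
  omega

noncomputable def HH (n : ℕ) : Subgroup GG := AA n ⊔ KK (BB n)

instance HH_normal (n : ℕ) : (HH n).Normal := Subgroup.sup_normal _ _

lemma psi_mem_HH (n : ℕ) (hn : 0 < n) (i : ℕ) (s : Gi i) : psi i s ∈ HH n := by
  by_cases hb : Bad n i
  · apply Subgroup.mem_sup_right
    intro j hj
    show (Pi.mulSingle i s : Gam) j = 1
    apply Pi.mulSingle_eq_of_ne
    rintro rfl
    exact hj (mem_BB hn hb)
  · exact Subgroup.mem_sup_left (dichotomy n i hb s)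

lemma X_mem_HH (n : ℕ) (hn : 0 < n) : X ∈ HH n := by
  obtain ⟨g, hg, hgi⟩ := X_almost n hn
  have h1 : X * g⁻¹ ∈ HH n := by
    apply fin_supp (HH n) (Finset.range (n+2)) (fun i _ s => psi_mem_HH n hn i s)
    intro i hi
    rw [Finset.mem_range, not_lt] at hi
    have hm := lt_mm i
    show E i 0 1 * ((g : Gam) i)⁻¹ = 1
    rw [hgi i (by omega)]; simp
  have h2 : X = X * g⁻¹ * g := by group
  rw [h2]
  exact Subgroup.mul_mem _ h1 (Subgroup.mem_sup_left hg)

lemma Y_mem_HH (n : ℕ) (hn : 0 < n) : Y ∈ HH n := by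
  rw [Y_of_X]
  exact (HH_normal n).conj_mem _ (X_mem_HH n hn) _

lemma gen_top : Subgroup.closure ({X, Y, C} : Set GG) = ⊤ := by
  have h := Subgroup.closure_closure_coe_preimage (k := ({xx, yy, ccc} : Set Gam))
  have h2 : (((↑) : ↥(Subgroup.closure ({xx, yy, ccc} : Set Gam)) → Gam) ⁻¹' ({xx, yy, ccc} : Set Gam))
      = ({X, Y, C} : Set GG) := by
    ext g
    simp only [Set.mem_preimage, Set.mem_insert_iff, Set.mem_singleton_iff]
    constructor
    · rintro (h | h | h)
      · left; exact Subtype.ext h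
      · right; left; exact Subtype.ext h
      · right; right; exact Subtype.ext h
    · rintro (h | h | h)
      · left; rw [h]; rfl
      · right; left; rw [h]; rfl
      · right; right; rw [h]; rfl
  rw [h2] at h
  exact h

lemma HH_index (n : ℕ) (hn : 0 < n) : (HH n).index ∣ n := by
  have h1 : Subgroup.zpowers (QuotientGroup.mk' (HH n) C) = ⊤ := by
    rw [← MonoidHom.map_zpowers]
    have h2 : (Subgroup.zpowers C ⊔ HH n) = ⊤ := by
      rw [eq_top_iff, ← gen_top, Subgroup.closure_le]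
      intro g hg
      simp only [Set.mem_insert_iff, Set.mem_singleton_iff] at hg
      rcases hg with rfl | rfl | rfl
      · exact Subgroup.mem_sup_right (X_mem_HH n hn)
      · exact Subgroup.mem_sup_right (Y_mem_HH n hn)
      · exact Subgroup.mem_sup_left (Subgroup.mem_zpowers _)
    have h3 : (Subgroup.zpowers C ⊔ HH n).map (QuotientGroup.mk' (HH n)) = ⊤ := by
      rw [h2, Subgroup.map_top_of_surjective _ (QuotientGroup.mk'_surjective _)]
    rw [Subgroup.map_sup] at h3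
    have h4 : (HH n).map (QuotientGroup.mk' (HH n)) = ⊥ := by
      rw [Subgroup.map_eq_bot_iff, QuotientGroup.ker_mk']
    rw [h4, sup_bot_eq] at h3
    exact h3
  have h2 := orderOf_eq_card_of_zpowers_eq_top h1
  rw [Subgroup.index_eq_card, ← h2]
  apply orderOf_dvd_of_pow_eq_one
  rw [← map_pow]
  rw [QuotientGroup.mk'_apply, QuotientGroup.eq_one_iff]
  exact Subgroup.mem_sup_left (pow_mem_AA n C)

end Pool.Agent.H570R3
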